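import Pool.Agent.U581.LB.StmQ
import Pool.Agent.U603.LB.FOUR

/-!
Project LQ, package MOM: moments of the trigonometric polynomial on the line and on the torus.
-/

set_option autoImplicit false

namespace Pool.Agent.U643.LB

open Real MeasureTheory Filter Topology ProbabilityTheory Pool.Agent.U581.LB
open Pool.Agent.U603.LB (rt_pos Th_int)

/-- the letters: an index and a sign -/
def Sg (N : ℕ) : Finset (ℕ × ℤ) := Finset.Icc 1 N ×ˢ {1, -1}

/-- coefficient of a letter -/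
noncomputable def dc (c : ℕ → ℂ) (p : ℕ × ℤ) : ℂ :=
  (1 / 2) * (if p.2 = 1 then c p.1 else (starRingEnd ℂ) (c p.1))

/-- `exp (2 π i x)` -/
noncomputable def ex (x : ℝ) : ℂ := Complex.exp (((2 * π * x : ℝ) : ℂ) * Complex.I)

theorem norm_ex (x : ℝ) : ‖ex x‖ = 1 := Complex.norm_exp_ofReal_mul_I _

theorem ex_zero : ex 0 = 1 := by simp [ex]

theorem ex_cont : Continuous ex := by unfold ex; fun_prop

theorem conj_ex (x : ℝ) : (starRingEnd ℂ) (ex x) = ex (-x) := by
  unfold ex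
  rw [← Complex.exp_conj]
  congr 1
  rw [map_mul, Complex.conj_ofReal, Complex.conj_I]
  push_cast
  ring

theorem ex_sum {ι : Type} (s : Finset ι) (a : ι → ℝ) : ∏ i ∈ s, ex (a i) = ex (∑ i ∈ s, a i) := by
  unfold ex
  rw [← Complex.exp_sum]
  congr 1
  rw [← Finset.sum_mul, Finset.mul_sum]
  push_cast
  rfl

theorem re_letter (c : ℕ → ℂ) (n : ℕ) (x : ℝ) :
    (((c n * ex x).re : ℝ) : ℂ) = ∑ e ∈ ({1, -1} : Finset ℤ), dc c (n, e) * ex (e * x) := by
  rw [Finset.sum_pair (by norm_num), Complex.re_eq_add_conj, map_mul, conj_ex]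
  unfold dc
  simp only [if_true, Int.cast_one, one_mul, Int.cast_neg, neg_mul]
  rw [if_neg (by norm_num)]
  ring

theorem G_eq (c : ℕ → ℂ) (N : ℕ) (R : ℝ) :
    ((G c N R : ℝ) : ℂ) = ∑ p ∈ Sg N, dc c p * ex (p.2 * (√p.1 * R)) := by
  unfold G Sg
  rw [Complex.ofReal_sum, Finset.sum_product]
  exact Finset.sum_congr rfl fun n _ => re_letter c n (√n * R)

theorem sf_mem {N n : ℕ} (hn : n ∈ Finset.Icc 1 N) : sf n ∈ Finset.Icc 1 N := by
  rw [Finset.mem_Icc] at hn ⊢
  have h := rt_sf n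
  constructor
  · rcases Nat.eq_zero_or_pos (sf n) with h0 | h0
    · rw [h0] at h; omega
    · exact h0
  · have : sf n ∣ n := ⟨rt n ^ 2, by rw [mul_comm]; exact h.symm⟩
    exact (Nat.le_of_dvd (by omega) this).trans hn.2

theorem Y_eq (c : ℕ → ℂ) (N : ℕ) (θ : ℕ → ℝ) :
    ((Y c N θ : ℝ) : ℂ) = ∑ p ∈ Sg N, dc c p * ex (p.2 * (rt p.1 * θ (sf p.1))) := by
  have h1 : Y c N θ = ∑ n ∈ Finset.Icc 1 N, (c n * ex (rt n * θ (sf n))).re := by
    rw [← Finset.sum_fiberwise_of_maps_to (fun n hn => sf_mem hn)]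
    unfold Y Yq blk
    refine Finset.sum_congr rfl fun q _ => Finset.sum_congr rfl fun n hn => ?_
    rw [(Finset.mem_filter.1 hn).2]
    rfl
  rw [h1]
  unfold Sg
  rw [Complex.ofReal_sum, Finset.sum_product]
  exact Finset.sum_congr rfl fun n _ => re_letter c n (rt n * θ (sf n))

theorem pow_eq (c : ℕ → ℂ) (N k : ℕ) (a : ℕ × ℤ → ℝ) :
    (∑ p ∈ Sg N, dc c p * ex (a p)) ^ k =
      ∑ w ∈ Fintype.piFinset (fun _ : Fin k => Sg N), (∏ i, dc c (w i)) * ex (∑ i, a (w i)) := by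
  have h1 : (∑ p ∈ Sg N, dc c p * ex (a p)) ^ k = ∏ _i : Fin k, ∑ p ∈ Sg N, dc c p * ex (a p) := by
    rw [Finset.prod_const, Finset.card_univ, Fintype.card_fin]
  rw [h1, Finset.prod_univ_sum]
  refine Finset.sum_congr rfl fun w _ => ?_
  rw [Finset.prod_mul_distrib, ex_sum]

theorem int_pow {Ω : Type} [MeasurableSpace Ω] (P : Measure Ω) [IsProbabilityMeasure P]
    (c : ℕ → ℂ) (N k : ℕ) (f : Ω → ℝ) (a : Ω → ℕ × ℤ → ℝ) (ha : ∀ p, Measurable fun ω => a ω p)
    (hf : ∀ ω, ((f ω : ℝ) : ℂ) = ∑ p ∈ Sg N, dc c p * ex (a ω p)) :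
    ((∫ ω, f ω ^ k ∂P : ℝ) : ℂ) = ∑ w ∈ Fintype.piFinset (fun _ : Fin k => Sg N),
      (∏ i, dc c (w i)) * ∫ ω, ex (∑ i, a ω (w i)) ∂P := by
  have h0 : ((∫ ω, f ω ^ k ∂P : ℝ) : ℂ) = ∫ ω, ((f ω ^ k : ℝ) : ℂ) ∂P :=
    (integral_ofReal (𝕜 := ℂ)).symm
  rw [h0]
  have h1 : ∀ ω, ((f ω ^ k : ℝ) : ℂ) = ∑ w ∈ Fintype.piFinset (fun _ : Fin k => Sg N),
      (∏ i, dc c (w i)) * ex (∑ i, a ω (w i)) := by
    intro ω
    rw [Complex.ofReal_pow, hf, pow_eq]
  simp only [h1]
  rw [integral_finsetSum]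
  · refine Finset.sum_congr rfl fun w _ => ?_
    rw [integral_const_mul]
  · intro w _
    refine Integrable.const_mul ?_ _
    refine Integrable.of_bound (C := 1) ?_ (Filter.Eventually.of_forall fun ω => (norm_ex _).le)
    exact (ex_cont.measurable.comp (Finset.measurable_sum _ fun i _ => ha (w i))).aestronglyMeasurable

theorem int_ex (b : ℤ) : ∫ x in (0 : ℝ)..1, ex (b * x) = if b = 0 then 1 else 0 := by
  by_cases hb : b = 0
  · rw [if_pos hb, hb]
    simp [ex_zero]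
  · rw [if_neg hb]
    have h2 : ∀ x : ℝ, ex (b * x) = Complex.exp ((b * (2 * π * Complex.I)) * x) := by
      intro x
      unfold ex
      congr 1
      push_cast
      ring
    have h3 : (b * (2 * π * Complex.I) : ℂ) ≠ 0 := by
      refine mul_ne_zero (by exact_mod_cast hb) Complex.two_pi_I_ne_zero
    simp only [h2]
    rw [integral_exp_mul_complex h3]
    have h4 : Complex.exp (b * (2 * π * Complex.I) * ((1 : ℝ) : ℂ)) = 1 := by
      rw [Complex.ofReal_one, mul_one]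
      exact Complex.exp_int_mul_two_pi_mul_I b
    rw [h4]
    simp

theorem int_torus (b : ℕ → ℤ) (Q : Finset ℕ) :
    ∫ θ, ex (∑ q ∈ Q, b q * θ q) ∂Th = if ∀ q ∈ Q, b q = 0 then 1 else 0 := by
  have hg : ∀ q : ℕ, Measurable fun x : ℝ => ex (b q * x) := fun q =>
    (ex_cont.comp (continuous_const.mul continuous_id)).measurable
  have hindc : iIndepFun (fun (q : (Q : Finset ℕ)) (θ : ℕ → ℝ) => ex (b q * θ q)) Th := by
    have h0 : iIndepFun (fun (q : ℕ) (θ : ℕ → ℝ) => ex (b q * θ q)) Th := by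
      unfold Th
      exact iIndepFun_infinitePi (X := fun q x => ex (b q * x)) hg
    exact h0.precomp Subtype.val_injective
  have h1 := hindc.integral_fun_prod_eq_prod_integral fun q =>
    ((hg q).comp (measurable_pi_apply (q : ℕ))).aestronglyMeasurable
  have h2 : ∀ θ : ℕ → ℝ, ex (∑ q ∈ Q, b q * θ q) = ∏ q : (Q : Finset ℕ), ex (b q * θ q) := by
    intro θ
    rw [ex_sum]
    congr 1
    exact (Finset.sum_coe_sort Q fun q => (b q : ℝ) * θ q).symm
  simp only [h2]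
  rw [h1]
  have h3 : ∀ q : ℕ, ∫ θ, ex (b q * θ q) ∂Th = if b q = 0 then 1 else 0 := fun q => by
    rw [Th_int (fun x => ex (b q * x)) (hg q).stronglyMeasurable q, int_ex]
  simp only [h3]
  by_cases hall : ∀ q ∈ Q, b q = 0
  · rw [if_pos hall]
    exact Finset.prod_eq_one fun q _ => if_pos (hall q q.2)
  · rw [if_neg hall]
    push Not at hall
    obtain ⟨q, hq, hb⟩ := hall
    exact Finset.prod_eq_zero (Finset.mem_univ (⟨q, hq⟩ : (Q : Finset ℕ))) (if_neg hb)

theorem sqrt_rt (n : ℕ) : √(n : ℝ) = rt n * √(sf n : ℝ) := by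
  have h := rt_sf n
  have h' : (n : ℝ) = (rt n : ℝ) ^ 2 * sf n := by
    exact_mod_cast h.symm
  conv_lhs => rw [h']
  rw [Real.sqrt_mul (sq_nonneg _), Real.sqrt_sq (Nat.cast_nonneg _)]

/-- grouping by squarefree parts -/
theorem group {k N : ℕ} (w : Fin k → ℕ × ℤ) (hw : ∀ i, (w i).1 ∈ Finset.Icc 1 N) (x : ℕ → ℝ) :
    ∑ i, ((w i).2 : ℝ) * (rt (w i).1 * x (sf (w i).1)) =
      ∑ q ∈ Finset.Icc 1 N, ((∑ i ∈ Finset.univ.filter (fun i => sf (w i).1 = q),
        (w i).2 * (rt (w i).1 : ℤ) : ℤ) : ℝ) * x q := by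
  rw [← Finset.sum_fiberwise_of_maps_to (s := Finset.univ) (t := Finset.Icc 1 N)
    (g := fun i => sf (w i).1) (fun i _ => sf_mem (hw i))]
  refine Finset.sum_congr rfl fun q _ => ?_
  push_cast
  rw [Finset.sum_mul]
  refine Finset.sum_congr rfl fun i hi => ?_
  rw [(Finset.mem_filter.1 hi).2]
  ring

theorem norm_dc (c : ℕ → ℂ) (p : ℕ × ℤ) : ‖dc c p‖ = 1 / 2 * ‖c p.1‖ := by
  unfold dc
  split_ifs <;> simp

theorem sum_dc (c : ℕ → ℂ) (N : ℕ) : ∑ p ∈ Sg N, ‖dc c p‖ = ∑ n ∈ Finset.Icc 1 N, ‖c n‖ := by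
  unfold Sg
  rw [Finset.sum_product]
  refine Finset.sum_congr rfl fun n _ => ?_
  rw [Finset.sum_pair (by norm_num), norm_dc, norm_dc]
  ring

/-- Package MOM. -/
theorem t_MOM (hLOW : S_LOW) : S_MOM := by
  intro c₁ c₂ K s T μ hA hK hs hT k N hk hN hlow hup c
  have := hA.prob
  have hG := int_pow μ c N k (fun x => G c N (T * x)) (fun x p => p.2 * (√p.1 * (T * x)))
    (fun p => by fun_prop) (fun x => G_eq c N (T * x))
  have hY := int_pow Th c N k (fun θ => Y c N θ) (fun θ p => p.2 * (rt p.1 * θ (sf p.1)))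
    (fun p => measurable_const.mul (measurable_const.mul (measurable_pi_apply _)))
    (fun θ => Y_eq c N θ)
  have hT0 : 0 < T := by linarith
  have hpi := Real.pi_pos
  -- every word
  have key : ∀ w ∈ Fintype.piFinset (fun _ : Fin k => Sg N),
      ‖(∫ x, ex (∑ i, ((w i).2 : ℝ) * (√(w i).1 * (T * x))) ∂μ) -
        ∫ θ, ex (∑ i, ((w i).2 : ℝ) * (rt (w i).1 * θ (sf (w i).1))) ∂Th‖ ≤ K * T ^ (-(s / 10)) := by
    intro w hw
    rw [Fintype.mem_piFinset] at hw
    have hw1 : ∀ i, (w i).1 ∈ Finset.Icc 1 N := fun i => (Finset.mem_product.1 (hw i)).1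
    have hw2 : ∀ i, (w i).2 = 1 ∨ (w i).2 = -1 := fun i => by
      have := (Finset.mem_product.1 (hw i)).2
      simpa using this
    have hw1' : ∀ i, 1 ≤ (w i).1 ∧ (w i).1 ≤ N := fun i => Finset.mem_Icc.1 (hw1 i)
    have hKT : 0 ≤ K * T ^ (-(s / 10)) := by positivity
    have hL := hLOW k N (fun i => (w i).1) (fun i => (w i).2) hk hN hw1' hw2
    -- the torus
    have e2 : ∀ θ : ℕ → ℝ, ∑ i, ((w i).2 : ℝ) * (rt (w i).1 * θ (sf (w i).1)) =
      ∑ q ∈ Finset.Icc 1 N, ((∑ i ∈ Finset.univ.filter (fun i => sf (w i).1 = q),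
        (w i).2 * (rt (w i).1 : ℤ) : ℤ) : ℝ) * θ q := fun θ => group w hw1 θ
    simp only [e2]
    rw [int_torus (fun q => ∑ i ∈ Finset.univ.filter (fun i => sf (w i).1 = q),
        (w i).2 * (rt (w i).1 : ℤ)) (Finset.Icc 1 N)]
    -- the line
    have e1 : ∀ x : ℝ, ∑ i, ((w i).2 : ℝ) * (√(w i).1 * (T * x)) =
        (∑ i, ((w i).2 : ℝ) * √(w i).1) * (T * x) := by
      intro x
      rw [Finset.sum_mul]
      exact Finset.sum_congr rfl fun i _ => by ring
    simp only [e1]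
    by_cases hall : ∀ q ∈ Finset.Icc 1 N, ∑ i ∈ Finset.univ.filter (fun i => sf (w i).1 = q),
        (w i).2 * (rt (w i).1 : ℤ) = 0
    · rw [if_pos hall]
      have e3 : ∑ i, ((w i).2 : ℝ) * √(w i).1 = 0 := by
        have h3 := group w hw1 (fun q => √(q : ℝ))
        have h4 : ∑ i, ((w i).2 : ℝ) * √(w i).1 =
            ∑ i, ((w i).2 : ℝ) * (rt (w i).1 * √(sf (w i).1 : ℝ)) :=
          Finset.sum_congr rfl fun i _ => by rw [← sqrt_rt]
        rw [h4, h3]
        refine Finset.sum_eq_zero fun q hq => ?_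
        rw [hall q hq]
        simp
      rw [e3]
      simp only [zero_mul, ex_zero]
      simpa using hKT
    · rw [if_neg hall, sub_zero]
      rcases hL with hL | hL
      · exact absurd (fun q _ => hL q) hall
      have hS : ∀ x : ℝ, ex ((∑ i, ((w i).2 : ℝ) * √(w i).1) * (T * x)) =
          Complex.exp ((((2 * π * T * ∑ i, ((w i).2 : ℝ) * √(w i).1) * x : ℝ) : ℂ) * Complex.I) := by
        intro x
        unfold ex
        congr 3
        ring
      simp only [hS]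
      obtain ⟨S, hSd⟩ : ∃ S : ℝ, S = ∑ i, ((w i).2 : ℝ) * √(w i).1 := ⟨_, rfl⟩
      rw [← hSd] at hL ⊢
      have habs : |2 * π * T * S| = 2 * π * T * |S| := by
        rw [abs_mul, abs_of_pos (by positivity : 0 < 2 * π * T)]
      have hlo : T ^ (1 / 10 : ℝ) ≤ |2 * π * T * S| := by
        rw [habs]
        refine hlow.trans ?_
        calc 2 * π * T / ((k : ℝ) * N) ^ (2 ^ k) = 2 * π * T * (1 / ((k : ℝ) * N) ^ (2 ^ k)) := by
              ring
          _ ≤ 2 * π * T * |S| := mul_le_mul_of_nonneg_left hL (by positivity)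
      have hSle : |S| ≤ k * N := by
        rw [hSd]
        refine (Finset.abs_sum_le_sum_abs _ _).trans ?_
        have h5 : ∀ i ∈ (Finset.univ : Finset (Fin k)), |((w i).2 : ℝ) * √(w i).1| ≤ N := by
          intro i _
          rw [abs_mul, abs_of_nonneg (Real.sqrt_nonneg _)]
          have h6 : |((w i).2 : ℝ)| = 1 := by
            rcases hw2 i with h | h <;> rw [h] <;> simp
          rw [h6, one_mul]
          have h7 : (1 : ℝ) ≤ (w i).1 := by exact_mod_cast (hw1' i).1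
          have h8 : ((w i).1 : ℝ) ≤ N := by exact_mod_cast (hw1' i).2
          refine le_trans ?_ h8
          rw [Real.sqrt_le_left (by linarith)]
          nlinarith
        refine (Finset.sum_le_card_nsmul _ _ _ h5).trans ?_
        simp
      have hhi : |2 * π * T * S| ≤ T ^ 2 := by
        rw [habs]
        refine le_trans ?_ hup
        calc 2 * π * T * |S| ≤ 2 * π * T * (k * N) :=
              mul_le_mul_of_nonneg_left hSle (by positivity)
          _ = 2 * π * ((k : ℝ) * N) * T := by ring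
      have hd := hA.dec (2 * π * T * S) hlo hhi
      refine hd.trans ?_
      refine mul_le_mul_of_nonneg_left ?_ hK
      have h9 : 0 < T ^ (1 / 10 : ℝ) := by positivity
      calc |2 * π * T * S| ^ (-s) ≤ (T ^ (1 / 10 : ℝ)) ^ (-s) :=
            Real.rpow_le_rpow_of_nonpos h9 hlo (by linarith)
        _ = T ^ (-(s / 10)) := by
            rw [← Real.rpow_mul hT0.le]
            congr 1
            ring
  have e0 : |∫ x, G c N (T * x) ^ k ∂μ - ∫ θ, Y c N θ ^ k ∂Th| =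
      ‖((∫ x, G c N (T * x) ^ k ∂μ : ℝ) : ℂ) - ((∫ θ, Y c N θ ^ k ∂Th : ℝ) : ℂ)‖ := by
    rw [← Complex.ofReal_sub, Complex.norm_real, Real.norm_eq_abs]
  rw [e0, hG, hY, ← Finset.sum_sub_distrib]
  simp only [← mul_sub]
  refine (norm_sum_le _ _).trans ?_
  calc ∑ w ∈ Fintype.piFinset (fun _ : Fin k => Sg N), ‖(∏ i, dc c (w i)) *
        ((∫ x, ex (∑ i, ((w i).2 : ℝ) * (√(w i).1 * (T * x))) ∂μ) -
        ∫ θ, ex (∑ i, ((w i).2 : ℝ) * (rt (w i).1 * θ (sf (w i).1))) ∂Th)‖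
      ≤ ∑ w ∈ Fintype.piFinset (fun _ : Fin k => Sg N), (∏ i, ‖dc c (w i)‖) *
        (K * T ^ (-(s / 10))) := by
        refine Finset.sum_le_sum fun w hw => ?_
        rw [norm_mul, norm_prod]
        exact mul_le_mul_of_nonneg_left (key w hw) (Finset.prod_nonneg fun _ _ => norm_nonneg _)
    _ = (∑ w ∈ Fintype.piFinset (fun _ : Fin k => Sg N), ∏ i, ‖dc c (w i)‖) *
        (K * T ^ (-(s / 10))) := by rw [Finset.sum_mul]
    _ = K * T ^ (-(s / 10)) * (∑ n ∈ Finset.Icc 1 N, ‖c n‖) ^ k := by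
        have h1 : ∑ w ∈ Fintype.piFinset (fun _ : Fin k => Sg N), ∏ i, ‖dc c (w i)‖ =
            (∑ n ∈ Finset.Icc 1 N, ‖c n‖) ^ k := by
          rw [← Finset.prod_univ_sum (fun _ : Fin k => Sg N) (fun _ p => ‖dc c p‖),
            Finset.prod_const, Finset.card_univ, Fintype.card_fin, sum_dc]
        rw [h1]
        ring

end Pool.Agent.U643.LB
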